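import Pool.Agent.Helper35.CWS.StA

/-!
# Project CWS, module STAR: a small neighbourhood in a locally compact relative CW complex
-/

set_option autoImplicit false

namespace Pool.Agent.Helper92.CWS

open Set Topology Metric Pool.Agent.Helper35.CWS

/-- A set which misses the base and meets every open cell in at most one point is closed. -/
theorem closed_of_subsingleton {Y : Type} [TopologicalSpace Y] [T2Space Y] {D : Set Y}
    [RelCWComplex (univ : Set Y) D] (S : Set Y) (hD : Disjoint S D)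
    (h : ∀ (n : ℕ) (j : RelCWComplex.cell (univ : Set Y) n),
      (S ∩ RelCWComplex.openCell n j).Subsingleton) : IsClosed S := by
  refine RelCWComplex.isClosed_of_isClosed_inter_openCell_or_isClosed_inter_closedCell
    (C := (univ : Set Y)) (D := D) (subset_univ S) ?_ ?_
  · rw [disjoint_iff_inter_eq_empty.1 hD]
    exact isClosed_empty
  · intro n _ j
    exact Or.inl (h n j).isClosed

/-- Only finitely many open cells meet a compact set. -/
theorem finite_cells {Y : Type} [TopologicalSpace Y] [T2Space Y] {D : Set Y}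
    [RelCWComplex (univ : Set Y) D] (K : Set Y) (hK : IsCompact K) :
    {c : Σ n, RelCWComplex.cell (univ : Set Y) n |
      (RelCWComplex.openCell c.1 c.2 ∩ K).Nonempty}.Finite := by
  by_contra hinf
  change Set.Infinite _ at hinf
  set I : Set (Σ n, RelCWComplex.cell (univ : Set Y) n) := {c | (RelCWComplex.openCell c.1 c.2 ∩ K).Nonempty} with hI
  have hch : ∀ c : Σ n, RelCWComplex.cell (univ : Set Y) n, ∃ y : Y, c ∈ I → y ∈ RelCWComplex.openCell c.1 c.2 ∩ K := by
    intro c
    by_cases hc : c ∈ I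
    · obtain ⟨y, hy⟩ := hc
      exact ⟨y, fun _ => hy⟩
    · obtain ⟨y, _⟩ := RelCWComplex.openCell_nonempty (C := (univ : Set Y)) c.1 c.2
      exact ⟨y, fun h => absurd h hc⟩
  choose t ht using hch
  have hinj : InjOn t I := by
    intro c hc c' hc' hcc
    by_contra hne
    have hd := RelCWComplex.disjoint_openCell_of_ne (C := (univ : Set Y)) (i := c.2) (j := c'.2) (by simpa using hne)
    refine Set.disjoint_left.1 hd (ht c hc).1 ?_
    rw [hcc]
    exact (ht c' hc').1
  have hTinf : (t '' I).Infinite := hinf.image hinj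
  have hTK : t '' I ⊆ K := by
    rintro y ⟨c, hc, rfl⟩
    exact (ht c hc).2
  obtain ⟨x, -, hx⟩ := hTinf.exists_accPt_of_subset_isCompact hK hTK
  rw [accPt_principal_iff_clusterPt, ← mem_closure_iff_clusterPt] at hx
  have hcl : IsClosed (t '' I \ {x}) := by
    refine closed_of_subsingleton (D := D) _ ?_ ?_
    · refine Set.disjoint_left.2 ?_
      rintro y ⟨⟨c, hc, rfl⟩, -⟩ hyD
      exact Set.disjoint_left.1 (RelCWComplex.disjointBase (C := (univ : Set Y)) c.1 c.2) (ht c hc).1 hyD
    · rintro n j y ⟨⟨⟨c, hc, rfl⟩, -⟩, hy⟩ y' ⟨⟨⟨c', hc', rfl⟩, -⟩, hy'⟩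
      have key : ∀ d : Σ n, RelCWComplex.cell (univ : Set Y) n, d ∈ I → t d ∈ RelCWComplex.openCell n j → d = ⟨n, j⟩ := by
        intro d hd hdn
        exact RelCWComplex.eq_of_not_disjoint_openCell (C := (univ : Set Y)) (j := d.2) (i := j)
          (Set.not_disjoint_iff.2 ⟨t d, (ht d hd).1, hdn⟩)
      rw [key c hc hy, key c' hc' hy']
  rw [hcl.closure_eq] at hx
  exact hx.2 rfl

theorem hSTAR : StSTAR := by
  intro Y _ _ _ D _ y₀ hy₀
  classical
  obtain ⟨K, hK, hKy⟩ := exists_compact_mem_nhds y₀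
  have hfin := finite_cells (D := D) K hK
  set F₀ : Finset (Σ n, RelCWComplex.cell (univ : Set Y) n) := hfin.toFinset with hF₀
  have hDc : IsClosed D := RelCWComplex.isClosedBase (univ : Set Y)
  set B : Set Y := ⋃ c ∈ F₀.filter (fun c => y₀ ∉ RelCWComplex.closedCell c.1 c.2), RelCWComplex.closedCell c.1 c.2 with hB
  have hBc : IsClosed B := by
    refine Set.Finite.isClosed_biUnion (Finset.finite_toSet _) ?_
    intro c _
    exact RelCWComplex.isClosed_closedCell
  refine ⟨interior K ∩ Dᶜ ∩ Bᶜ, F₀.filter (fun c => y₀ ∈ RelCWComplex.closedCell c.1 c.2),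
    (isOpen_interior.inter hDc.isOpen_compl).inter hBc.isOpen_compl, ?_, ?_, ?_, ?_⟩
  · refine ⟨⟨mem_interior_iff_mem_nhds.2 hKy, hy₀⟩, ?_⟩
    intro hyB
    simp only [hB, mem_iUnion] at hyB
    obtain ⟨c, hc, hcy⟩ := hyB
    exact (Finset.mem_filter.1 hc).2 hcy
  · exact Set.disjoint_left.2 (fun y hy hyD => hy.1.2 hyD)
  · rintro y ⟨⟨hyK, hyD⟩, hyB⟩
    have hyu : y ∈ D ∪ ⋃ (n : ℕ) (j : RelCWComplex.cell (univ : Set Y) n), RelCWComplex.openCell n j := by
      rw [RelCWComplex.union_iUnion_openCell_eq_complex]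
      exact mem_univ y
    rcases hyu with h | h
    · exact absurd h hyD
    · simp only [mem_iUnion] at h
      obtain ⟨n, j, hj⟩ := h
      have hmem : (⟨n, j⟩ : Σ n, RelCWComplex.cell (univ : Set Y) n) ∈ F₀ := by
        rw [hF₀, Set.Finite.mem_toFinset]
        exact ⟨y, hj, interior_subset hyK⟩
      refine ⟨⟨n, j⟩, Finset.mem_filter.2 ⟨hmem, ?_⟩, hj⟩
      by_contra hno
      apply hyB
      simp only [hB, mem_iUnion]
      exact ⟨⟨n, j⟩, Finset.mem_filter.2 ⟨hmem, hno⟩, RelCWComplex.openCell_subset_closedCell _ _ hj⟩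
  · intro c hc
    exact (Finset.mem_filter.1 hc).2

end Pool.Agent.Helper92.CWS
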